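import Mathlib
import Pool.Agent.H521R3.TZ.Lower

/-!
# The sharp sum-of-squares bound for relation-free sets (ternary)

A set `B` without nontrivial relation with coefficients in `{-2, ..., 2}` satisfies
`∑ x ∈ B, x ^ 2 ≥ (9 ^ |B| - 1) / 8`, with equality for the powers of `3`.
-/

set_option autoImplicit false

namespace Pool.Agent.Y153.TZ2

open Finset
open Pool.Agent.H521R3.TZ

/-- Distinct integers have a large sum of squares. -/
lemma sum_sq_ge' (N : ℕ) : ∀ T : Finset ℤ, T.card = N →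
    ∑ j ∈ range N, (((j + 1) / 2 : ℕ) : ℤ) ^ 2 ≤ ∑ s ∈ T, s ^ 2 := by
  induction N with
  | zero =>
    intro T hT
    rw [Finset.card_eq_zero] at hT
    simp [hT]
  | succ N ih =>
    intro T hT
    have hne : T.Nonempty := by rw [← Finset.card_pos]; omega
    obtain ⟨a, ha, hmax⟩ := Finset.exists_max_image T (fun s => |s|) hne
    have h1 := ih (T.erase a) (by rw [Finset.card_erase_of_mem ha, hT]; omega)
    rw [← Finset.add_sum_erase T _ ha, Finset.sum_range_succ]
    have h2 : (((N + 1) / 2 : ℕ) : ℤ) ≤ |a| := by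
      have hsub : T ⊆ Finset.Icc (-|a|) |a| := by
        intro s hs
        rw [Finset.mem_Icc]
        exact abs_le.mp (hmax s hs)
      have h3 := Finset.card_le_card hsub
      rw [hT, Int.card_Icc] at h3
      have h4 : 0 ≤ |a| := abs_nonneg a
      omega
    have h3 : (((N + 1) / 2 : ℕ) : ℤ) ^ 2 ≤ a ^ 2 := by
      have h4 : (((N + 1) / 2 : ℕ) : ℤ) ^ 2 ≤ |a| ^ 2 := pow_le_pow_left₀ (by positivity) h2 2
      rwa [sq_abs] at h4
    linarith

lemma sum_ceil (M : ℕ) : 3 * ∑ j ∈ range (2 * M + 1), (((j + 1) / 2 : ℕ) : ℤ) ^ 2 =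
    M * (M + 1) * (2 * M + 1) := by
  induction M with
  | zero => simp
  | succ M ih =>
    have e : 2 * (M + 1) + 1 = (2 * M + 1) + 1 + 1 := by ring
    rw [e, Finset.sum_range_succ, Finset.sum_range_succ, mul_add, mul_add, ih]
    have e1 : (2 * M + 1 + 1) / 2 = M + 1 := by omega
    have e2 : (2 * M + 1 + 1 + 1) / 2 = M + 1 := by omega
    rw [e1, e2]
    push_cast
    ring

/-- The sharp lower bound for the sum of squares. -/
theorem sum_sq_lower (B : Finset ℕ) (hB : NoRel B) :
    (9 : ℤ) ^ B.card ≤ 8 * ∑ x ∈ B, (x : ℤ) ^ 2 + 1 := by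
  obtain ⟨T, h1, -, h3⟩ := centred B hB B (Finset.Subset.refl _)
  obtain ⟨M, hM⟩ : Odd (3 ^ B.card) := Odd.pow (by decide)
  have h4 := sum_sq_ge' (2 * M + 1) T (by rw [h1, hM])
  have h5 := sum_ceil M
  have h6 : (3 : ℤ) ^ B.card = 2 * M + 1 := by exact_mod_cast hM
  rw [h6] at h3
  have h7 : (9 : ℤ) ^ B.card = (2 * M + 1) ^ 2 := by
    rw [← h6, ← pow_mul, mul_comm, pow_mul]; norm_num
  rw [h7]
  have h8 : (2 * (M : ℤ) + 1) * (M * (M + 1)) ≤
      (2 * (M : ℤ) + 1) * (2 * ∑ x ∈ B, (x : ℤ) ^ 2) := by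
    have a1 : (2 * (M : ℤ) + 1) * (M * (M + 1)) = M * (M + 1) * (2 * M + 1) := by ring
    have a2 : (2 * (M : ℤ) + 1) * (2 * ∑ x ∈ B, (x : ℤ) ^ 2) =
        2 * (2 * (M : ℤ) + 1) * ∑ x ∈ B, (x : ℤ) ^ 2 := by ring
    rw [a1, a2, ← h3, ← h5]
    linarith
  have h9 := le_of_mul_le_mul_left h8 (by positivity)
  have h10 : (2 * (M : ℤ) + 1) ^ 2 = 4 * (M * (M + 1)) + 1 := by ring
  rw [h10]
  linarith

/-- Equality is attained (by the powers of `3`). -/
theorem exists_eq (k : ℕ) : ∃ B : Finset ℕ, B.card = k ∧ (∀ b ∈ B, 0 < b) ∧ NoRel B ∧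
    8 * ∑ x ∈ B, x ^ 2 + 1 = 9 ^ k := by
  induction k with
  | zero =>
    refine ⟨∅, rfl, by simp, ?_, by simp⟩
    intro c _ _ x hx
    simp at hx
  | succ k ih =>
    obtain ⟨B, h1, h2, h4, h5⟩ := ih
    have hinj : Function.Injective (fun x : ℕ => 3 * x) := fun a b hab => by
      simp only at hab; omega
    have hnot : 1 ∉ B.image (fun x => 3 * x) := by
      simp only [Finset.mem_image, not_exists, not_and]
      intro x _ hx
      omega
    refine ⟨insert 1 (B.image (fun x => 3 * x)), ?_, ?_, ?_, ?_⟩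
    · rw [Finset.card_insert_of_notMem hnot, Finset.card_image_of_injective _ hinj, h1]
    · intro b hb
      rcases Finset.mem_insert.mp hb with rfl | hb
      · norm_num
      · obtain ⟨x, hx, rfl⟩ := Finset.mem_image.mp hb
        have := h2 x hx
        omega
    · intro c hc hsum
      rw [Finset.sum_insert hnot, Finset.sum_image (fun a _ b _ hab => hinj hab)] at hsum
      have hc1 := hc 1 (Finset.mem_insert_self _ _)
      have h3s : ∑ x ∈ B, c (3 * x) * ((3 * x : ℕ) : ℤ) = 3 * ∑ x ∈ B, c (3 * x) * (x : ℤ) := by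
        rw [Finset.mul_sum]
        apply Finset.sum_congr rfl
        intro x _
        push_cast
        ring
      rw [h3s] at hsum
      rw [abs_le] at hc1
      have hz : c 1 = 0 := by
        push_cast at hsum
        omega
      have hs0 : ∑ x ∈ B, c (3 * x) * (x : ℤ) = 0 := by
        rw [hz] at hsum
        linarith
      have := h4 (fun x => c (3 * x)) (fun x hx => hc _ (Finset.mem_insert_of_mem
        (Finset.mem_image.mpr ⟨x, hx, rfl⟩))) hs0
      intro x hx
      rcases Finset.mem_insert.mp hx with rfl | hx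
      · exact hz
      · obtain ⟨y, hy, rfl⟩ := Finset.mem_image.mp hx
        exact this y hy
    · rw [Finset.sum_insert hnot, Finset.sum_image (fun a _ b _ hab => hinj hab)]
      have h6 : ∑ x ∈ B, (3 * x) ^ 2 = 9 * ∑ x ∈ B, x ^ 2 := by
        rw [Finset.mul_sum]
        apply Finset.sum_congr rfl
        intro x _
        ring
      have h7 : 9 ^ (k + 1) = 9 * 9 ^ k := by ring
      rw [h6, h7, ← h5]
      ring

end Pool.Agent.Y153.TZ2
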